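import Pool.Agent.Y667.BKP.Def
import Pool.Agent.TH841.SH.Kum

/-!
# The Bloch–Kato Selmer group of a curve of rank zero over a number field, all primes `p`
-/

set_option autoImplicit false

namespace Pool.Agent.Y667.BKP

section abs

variable {A G : Type} [AddCommGroup A] (a : G → A →+ A) {p : ℕ}

/-- the fixed points -/
def Fix : AddSubgroup A where
  carrier := {P | ∀ σ, a σ P = P}
  zero_mem' := fun σ => map_zero _
  add_mem' := fun {x y} hx hy σ => by rw [map_add, hx σ, hy σ]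
  neg_mem' := fun {x} hx σ => by rw [map_neg, hx σ]

lemma p_prim (hp : p.Prime) [Finite (Fix a)] (c : G → A) (K : ℕ) (hK : ∀ σ, (p ^ K : ℕ) • c σ = 0)
    (hcob : ∃ P, ∀ σ, c σ = a σ P - P) :
    ∃ P, (∃ m : ℕ, (p ^ m : ℕ) • P = 0) ∧ ∀ σ, c σ = a σ P - P := by
  obtain ⟨P0, hP0⟩ := hcob
  obtain ⟨N, hN⟩ : ∃ N : ℕ, N = Nat.card (Fix a) := ⟨_, rfl⟩
  have hN0 : N ≠ 0 := by
    rw [hN]
    exact Nat.card_pos.ne'
  obtain ⟨v, N', hndvd, hNv⟩ := Nat.exists_eq_pow_mul_and_not_dvd hN0 p hp.ne_one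
  have hcop : Nat.Coprime (p ^ K) N' := by
    apply Nat.Coprime.pow_left
    exact (Nat.Prime.coprime_iff_not_dvd hp).2 hndvd
  obtain ⟨u, hu1, hu2⟩ := Nat.chineseRemainder hcop 1 0
  have hQ : (p ^ K : ℕ) • P0 ∈ Fix a := by
    intro σ
    rw [map_nsmul, ← sub_eq_zero, ← nsmul_sub, ← hP0, hK]
  have hNQ : N • ((p ^ K : ℕ) • P0) = 0 := by
    have h1 : N • (⟨_, hQ⟩ : Fix a) = 0 := by
      rw [hN]
      exact card_nsmul_eq_zero'
    exact congrArg Subtype.val h1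
  have hcu : ∀ σ, u • c σ = c σ := by
    intro σ
    obtain ⟨t, ht⟩ := (Nat.modEq_iff_dvd.1 hu1.symm)
    have h1 : (u : ℤ) = 1 + t * (p ^ K : ℕ) := by
      have h2 : (u : ℤ) - ((1 : ℕ) : ℤ) = ((p ^ K : ℕ) : ℤ) * t := ht
      push_cast at h2 ⊢
      linarith
    rw [← natCast_zsmul, h1, add_smul, one_smul, mul_smul, natCast_zsmul, hK, smul_zero, add_zero]
  refine ⟨u • P0, ⟨v + K, ?_⟩, fun σ => ?_⟩
  · obtain ⟨w, hw⟩ := (Nat.modEq_zero_iff_dvd.1 hu2)
    have h1 : (p ^ (v + K) : ℕ) * u = w * (N * p ^ K) := by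
      rw [hw, hNv, pow_add]
      ring
    rw [smul_smul, h1, mul_smul, mul_smul, hNQ, smul_zero]
  · rw [map_nsmul, ← nsmul_sub, ← hP0, hcu]

/-- **Lifting lemma** (inverse limits of finite nonempty sets). -/
theorem lift (hp : p.Prime) [Finite (Fix a)] (c : G → ℕ → A)
    (hc : ∀ σ n, p • c σ (n + 1) = c σ n)
    (htor : ∀ n, ∃ K : ℕ, ∀ σ, (p ^ K : ℕ) • c σ n = 0)
    (hcob : ∀ n, ∃ P, ∀ σ, c σ n = a σ P - P) :
    ∃ x : ℕ → A, (∀ n, p • x (n + 1) = x n ∧ ∃ m : ℕ, (p ^ m : ℕ) • x n = 0) ∧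
      ∀ σ n, c σ n = a σ (x n) - x n := by
  have hpow : ∀ (σ : G) (n k : ℕ), (p ^ k : ℕ) • c σ (n + k) = c σ n := by
    intro σ n k
    induction k with
    | zero => simp
    | succ k ih =>
      rw [pow_succ, mul_smul, ← add_assoc, hc, ih]
  have hne : ∀ n, ∃ P, (∃ m : ℕ, (p ^ m : ℕ) • P = 0) ∧ ∀ σ, c σ n = a σ P - P := by
    intro n
    obtain ⟨K, hK⟩ := htor n
    exact p_prim a hp (fun σ => c σ n) K hK (hcob n)
  let S : ℕ → Type := fun n => {P : A // (∃ m : ℕ, (p ^ m : ℕ) • P = 0) ∧ ∀ σ, c σ n = a σ P - P}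
  have hfin : ∀ n, Finite (S n) := by
    intro n
    obtain ⟨P0, hP0, hP1⟩ := hne n
    refine Finite.of_injective (β := Fix a) (fun P => ⟨P.1 - P0, fun σ => ?_⟩) (fun P Q h => ?_)
    · have h1 := P.2.2 σ
      rw [hP1 σ] at h1
      rw [map_sub]
      have h2 : a σ P.1 = a σ P0 - P0 + P.1 := by
        rw [h1]
        abel
      rw [h2]
      abel
    · have h1 : P.1 - P0 = Q.1 - P0 := congrArg Subtype.val h
      exact Subtype.ext (sub_left_injective h1)
  have hnon : ∀ n, Nonempty (S n) := by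
    intro n
    obtain ⟨P0, hP0⟩ := hne n
    exact ⟨⟨P0, hP0⟩⟩
  obtain ⟨f, hf⟩ := exists_seq_forall_proj_of_forall_finite (α := S)
    (fun {i j} hij P => ⟨(p ^ (j - i) : ℕ) • P.1, by
      obtain ⟨⟨m, hm⟩, h2⟩ := P.2
      refine ⟨⟨m, by rw [smul_comm, hm, smul_zero]⟩, fun σ => ?_⟩
      rw [map_nsmul, ← nsmul_sub, ← h2 σ]
      have := hpow σ i (j - i)
      rw [Nat.add_sub_cancel' hij] at this
      exact this.symm⟩)
    (fun i P => by
      apply Subtype.ext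
      simp)
    (fun i j k hij hjk P => by
      apply Subtype.ext
      show (p ^ (j - i) : ℕ) • ((p ^ (k - j) : ℕ) • P.1) = (p ^ (k - i) : ℕ) • P.1
      rw [smul_smul, ← pow_add]
      congr 2
      omega)
    (fun i P => Set.toFinite _)
  refine ⟨fun n => (f n).1, fun n => ⟨?_, (f n).2.1⟩, fun σ n => (f n).2.2 σ⟩
  have h1 := congrArg Subtype.val (hf (Nat.le_add_right n 1))
  have h2 : (p ^ (n + 1 - n) : ℕ) • (f (n + 1)).1 = (f n).1 := h1
  rw [Nat.add_sub_cancel_left, pow_one] at h2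
  exact h2

end abs

open WeierstrassCurve Pool.Agent.TH841.SH.D

variable {F : Type} [Field F] [NumberField F] {p : ℕ}

omit [NumberField F] in
lemma act_some (W : WeierstrassCurve F) {K L : Type} [Field K] [Field L] [Algebra F K]
    [Algebra F L] (φ : K →ₐ[F] L) {x y : K} (h : (W.baseChange K).toAffine.Nonsingular x y) :
    act W φ (.some x y h) =
      .some (φ x) (φ y) ((Affine.baseChange_nonsingular W φ.injective ..).mpr h) := rfl

open scoped Classical in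
/-- fixed points are rational -/
lemma exists_rat (W : WeierstrassCurve F) :
    ∃ j : W.toAffine.Point →+ Pt W (AlgebraicClosure F),
    Function.Injective j ∧ (∀ (σ : Gal F) (P : W.toAffine.Point),
      act W σ.toAlgHom (j P) = j P) ∧
    ∀ P : Pt W (AlgebraicClosure F), (∀ σ : Gal F, act W σ.toAlgHom P = P) → ∃ q, j q = P := by
  suffices H : ∀ W' : WeierstrassCurve F, W' = W.baseChange F →
      ∃ j : W'.toAffine.Point →+ Pt W (AlgebraicClosure F), Function.Injective j ∧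
      (∀ (σ : Gal F) (P : W'.toAffine.Point), act W σ.toAlgHom (j P) = j P) ∧
      ∀ P : Pt W (AlgebraicClosure F), (∀ σ : Gal F, act W σ.toAlgHom P = P) → ∃ q, j q = P by
    apply H W
    apply WeierstrassCurve.ext <;> simp [WeierstrassCurve.baseChange]
  rintro W' rfl
  refine ⟨Affine.Point.map (Algebra.ofId F (AlgebraicClosure F)), Affine.Point.map_injective _,
    ?_, ?_⟩
  · intro σ P
    rcases P with _ | ⟨x, y, h⟩
    · rfl
    · exact (Affine.Point.some.injEq _ _ _ _ _ _).mpr ⟨σ.commutes x, σ.commutes y⟩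
  · intro P hP
    rcases P with _ | ⟨X, Y, h⟩
    · exact ⟨0, rfl⟩
    · have hfix : ∀ σ : Gal F, σ X = X ∧ σ Y = Y := by
        intro σ
        exact (Affine.Point.some.injEq _ _ _ _ _ _).mp (hP σ)
      obtain ⟨x, hx⟩ := Pool.Agent.TH841.SH.fix_mem (K := F) X (fun τ => (hfix τ).1)
      obtain ⟨y, hy⟩ := Pool.Agent.TH841.SH.fix_mem (K := F) Y (fun τ => (hfix τ).2)
      subst hx hy
      have hn : (W.baseChange F).toAffine.Nonsingular x y :=
        (Affine.baseChange_nonsingular W (f := Algebra.ofId F (AlgebraicClosure F))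
          (Algebra.ofId F (AlgebraicClosure F)).injective x y).mp h
      exact ⟨.some x y hn, rfl⟩

/-- the coordinates of a Selmer cocycle are cocycles of `Ш` -/
lemma coord_sha {W : WeierstrassCurve F} {c : Coch2 W} (hc : IsSelV p W c) (n : ℕ) :
    (fun σ => c σ n : Coch W) ∈ Pool.Agent.TH841.NF.D.shaCoc W := by
  obtain ⟨⟨h1, h2, h3⟩, h4, h5⟩ := hc
  refine ⟨⟨h1 n, fun σ τ => h3 σ τ n⟩, fun v ι => ?_, fun v ι => ?_⟩
  · obtain ⟨Q, -, hQ⟩ := h4 v ι
    exact ⟨Q n, fun τ σ hσ => hQ τ σ hσ n⟩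
  · obtain ⟨Q, -, hQ⟩ := h5 v ι
    exact ⟨Q n, fun τ σ hσ => hQ τ σ hσ n⟩

/-- a continuous cocycle with values in `V_p` is bounded in every coordinate -/
lemma coord_tor {W : WeierstrassCurve F} {c : Coch2 W} (hc : IsCocV p W c) (n : ℕ) :
    ∃ K : ℕ, ∀ σ, (p ^ K : ℕ) • c σ n = 0 := by
  have hfin : (Set.range fun σ => c σ n).Finite := (hc.1 n).range_finite
  choose m hm using fun σ => (hc.2.1 σ n).2
  have hex : ∀ y ∈ Set.range (fun σ => c σ n), ∃ k : ℕ, (p ^ k : ℕ) • y = 0 := by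
    rintro y ⟨σ, rfl⟩
    exact ⟨m σ, hm σ⟩
  choose! k hk using hex
  obtain ⟨K, hK⟩ := (hfin.image k).bddAbove
  refine ⟨K, fun σ => ?_⟩
  have h1 := hk _ (Set.mem_range_self σ)
  have h2 : k (c σ n) ≤ K := hK ⟨_, Set.mem_range_self σ, rfl⟩
  rw [← Nat.sub_add_cancel h2, pow_add, mul_smul, h1, smul_zero]

/-- **The Bloch–Kato Selmer group is zero**, if there are finitely many points and the `p`-primary
part of `Ш` has bounded exponent. -/
theorem h1f_zero (hp : p.Prime) {W : WeierstrassCurve F} (hfin : Finite W.toAffine.Point) (m : ℕ)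
    (hS : ∀ (k : ℕ) (x : Pool.Agent.TH841.NF.D.Sha W), (p ^ k : ℕ) • x = 0 →
      (p ^ m : ℕ) • x = 0) : ∀ x : H1f p W, x = 0 := by
  have hFix : Finite (Fix fun σ : Gal F => act W σ.toAlgHom) := by
    obtain ⟨j, -, -, hj⟩ := exists_rat W
    refine Finite.of_surjective (α := {q : W.toAffine.Point // ∀ σ : Gal F,
      act W σ.toAlgHom (j q) = j q}) (fun q => ⟨j q.1, q.2⟩) (fun P => ?_)
    obtain ⟨q, hq⟩ := hj P.1 P.2
    refine ⟨⟨q, ?_⟩, Subtype.ext hq⟩
    rw [hq]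
    exact P.2
  intro x
  obtain ⟨⟨c, hc⟩, rfl⟩ := QuotientAddGroup.mk_surjective x
  refine (QuotientAddGroup.eq_zero_iff _).2 ?_
  rw [AddSubgroup.mem_addSubgroupOf]
  have hc' : IsSelV p W c := hc
  have hpow : ∀ (σ : Gal F) (n k : ℕ), (p ^ k : ℕ) • c σ (n + k) = c σ n := by
    intro σ n k
    induction k with
    | zero => simp
    | succ k ih =>
      rw [pow_succ, mul_smul, ← add_assoc, (hc'.1.2.1 σ (n + k)).1, ih]
  have hcob : ∀ n, ∃ P, ∀ σ : Gal F, c σ n = act W σ.toAlgHom P - P := by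
    intro n
    obtain ⟨K, hK⟩ := coord_tor hc'.1 (n + m)
    obtain ⟨f, hf⟩ : ∃ f : Pool.Agent.TH841.NF.D.shaCoc W, f.1 = fun σ => c σ (n + m) :=
      ⟨⟨_, coord_sha hc' (n + m)⟩, rfl⟩
    have h0 : (p ^ K : ℕ) • f = 0 := by
      apply Subtype.ext
      rw [AddSubgroup.coe_nsmul, hf]
      funext σ
      exact hK σ
    have h1 : (p ^ K : ℕ) • (QuotientAddGroup.mk f : Pool.Agent.TH841.NF.D.Sha W) = 0 := by
      rw [← QuotientAddGroup.mk_nsmul, h0]
      rfl
    have h2 : (QuotientAddGroup.mk ((p ^ m : ℕ) • f) : Pool.Agent.TH841.NF.D.Sha W) = 0 := by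
      rw [QuotientAddGroup.mk_nsmul]
      exact hS K _ h1
    have h3 := (QuotientAddGroup.eq_zero_iff _).1 h2
    rw [AddSubgroup.mem_addSubgroupOf] at h3
    obtain ⟨P, hP⟩ := h3
    refine ⟨P, fun σ => ?_⟩
    rw [← hP σ, AddSubgroup.coe_nsmul, hf]
    exact (hpow σ n m).symm
  obtain ⟨x, hx1, hx2⟩ := lift (fun σ : Gal F => act W σ.toAlgHom) hp c
    (fun σ n => (hc'.1.2.1 σ n).1) (fun n => coord_tor hc'.1 n) hcob
  exact ⟨x, hx1, hx2⟩

/-- a finite group tensored with `ℚ_p` is zero -/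
theorem tensor_zero (p : ℕ) [Fact p.Prime] {A : Type} [AddCommGroup A] [Finite A] :
    ∀ x : TensorProduct ℤ A ℚ_[p], x = 0 := by
  intro x
  induction x using TensorProduct.induction_on with
  | zero => rfl
  | tmul a q =>
    have h1 : (Nat.card A : ℤ) • a = 0 := by
      rw [natCast_zsmul]
      exact card_nsmul_eq_zero'
    have h2 : (Nat.card A : ℚ_[p]) ≠ 0 := by
      exact_mod_cast Nat.card_pos.ne'
    have h3 : q = (Nat.card A : ℤ) • (q / (Nat.card A : ℚ_[p])) := by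
      rw [zsmul_eq_mul]
      push_cast
      field_simp
    rw [h3, TensorProduct.tmul_smul, TensorProduct.smul_tmul', h1, TensorProduct.zero_tmul]
  | add x y hx hy => rw [hx, hy, add_zero]

end Pool.Agent.Y667.BKP
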