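import Pool.Agent.TH841.NF.ShaN

/-!
# The Bloch–Kato Selmer group `H¹_f(K, V_p E)` of an elliptic curve over a number field `K`

`V_p E = T_p E ⊗ ℚ_p` is described by sequences of points: the element `x` corresponds to the sequence
of the classes of `p⁻ⁿ x` in `V_p E / T_p E = E[p ^ ∞]`. The local conditions are given by the images
of the local Kummer maps.
-/

set_option autoImplicit false

namespace Pool.Agent.Y667.BKP

open WeierstrassCurve Pool.Agent.TH841.SH.D

section

variable {k : Type} [Field k]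

/-- the sequences of points of `W` over the algebraic closure -/
def PSeq (W : WeierstrassCurve k) : Type := ℕ → Pt W (AlgebraicClosure k)

noncomputable instance PSeq.group (W : WeierstrassCurve k) : AddCommGroup (PSeq W) :=
  @Pi.addCommGroup ℕ (fun _ => Pt W (AlgebraicClosure k)) (fun _ => Pt.group W _)

/-- The rational Tate module `V_p(W) = T_p(W) ⊗ ℚ_p`: the sequences `x₀, x₁, …` of points of `W` over
the algebraic closure, of `p`-power order, with `p xₙ₊₁ = xₙ` (`xₙ` is the class of `p⁻ⁿ x` in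
`V_p(W) / T_p(W) = W[p ^ ∞]`). -/
def IsV (p : ℕ) (W : WeierstrassCurve k) (x : PSeq W) : Prop :=
  ∀ n, p • x (n + 1) = x n ∧ ∃ m : ℕ, (p ^ m : ℕ) • x n = 0

/-- functions on the absolute Galois group with values in the sequences of points -/
def Coch2 (W : WeierstrassCurve k) : Type := Gal k → PSeq W

noncomputable instance Coch2.group (W : WeierstrassCurve k) : AddCommGroup (Coch2 W) :=
  @Pi.addCommGroup (Gal k) (fun _ => PSeq W) (fun _ => PSeq.group W)

/-- `c` is a continuous cocycle with values in `V_p(W)`: each coordinate is locally constant, and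
`c (σ τ) = c σ + σ (c τ)`. -/
def IsCocV (p : ℕ) (W : WeierstrassCurve k) (c : Coch2 W) : Prop :=
  (∀ n, IsLocallyConstant fun σ => c σ n) ∧ (∀ σ, IsV p W (c σ)) ∧
    ∀ (σ τ : Gal k) (n : ℕ), c (σ * τ) n = c σ n + act W σ.toAlgHom (c τ n)

/-- `c` is a coboundary: `c σ = σ x - x` with `x` in `V_p(W)`. -/
def IsCobV (p : ℕ) (W : WeierstrassCurve k) (c : Coch2 W) : Prop :=
  ∃ x : PSeq W, IsV p W x ∧ ∀ (σ : Gal k) (n : ℕ), c σ n = act W σ.toAlgHom (x n) - x n

/-- The restriction of `c` to the absolute Galois group of the extension `K` of `k` is in the image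
of the Kummer map of `K`: there is a sequence `Q₀, Q₁, …` of points over the algebraic closure of `K`
with `p Qₙ₊₁ = Qₙ` such that `(c τ)ₙ = τ Qₙ - Qₙ` for all `n` and `τ`. (As `c` is continuous with
values in `V_p(W)`, some multiple `p ^ m Q₀` is a point over `K`, and the class of `c` is `p ^ (-m)`
times its image under the Kummer map.) -/
def LocKum (p : ℕ) (W : WeierstrassCurve k) (K : Type) [Field K] [Algebra k K] (c : Coch2 W) :
    Prop :=
  ∀ ι : AlgebraicClosure k →ₐ[k] AlgebraicClosure K, ∃ Q : ℕ → Pt W (AlgebraicClosure K),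
    (∀ n, p • Q (n + 1) = Q n) ∧
    ∀ (τ : Gal K) (σ : Gal k), (∀ x, τ (ι x) = ι (σ x)) → ∀ n,
      act W ι (c σ n) = act W (τ.toAlgHom.restrictScalars k) (Q n) - Q n

variable {p : ℕ}

lemma isV_zero (W : WeierstrassCurve k) : IsV p W 0 :=
  fun _ => ⟨smul_zero _, 0, smul_zero _⟩

lemma isV_add {W : WeierstrassCurve k} {x y : PSeq W} (hx : IsV p W x) (hy : IsV p W y) :
    IsV p W (x + y) := by
  intro n
  obtain ⟨h1, m, hm⟩ := hx n
  obtain ⟨h2, l, hl⟩ := hy n
  refine ⟨?_, m + l, ?_⟩
  · change p • (x (n + 1) + y (n + 1)) = x n + y n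
    rw [smul_add, h1, h2]
  · change (p ^ (m + l) : ℕ) • (x n + y n) = 0
    rw [smul_add, pow_add, mul_comm, mul_smul, hm, smul_zero, mul_comm, mul_smul, hl, smul_zero,
      add_zero]

lemma isV_neg {W : WeierstrassCurve k} {x : PSeq W} (hx : IsV p W x) : IsV p W (-x) := by
  intro n
  obtain ⟨h1, m, hm⟩ := hx n
  refine ⟨?_, m, ?_⟩
  · change p • (-x (n + 1)) = -x n
    rw [smul_neg, h1]
  · change (p ^ m : ℕ) • (-x n) = 0
    rw [smul_neg, hm, neg_zero]

lemma cocV_zero (W : WeierstrassCurve k) : IsCocV p W 0 :=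
  ⟨fun _ => IsLocallyConstant.const _, fun _ => isV_zero W, fun σ τ n => by
    change (0 : Pt W (AlgebraicClosure k)) = 0 + act W σ.toAlgHom 0
    rw [map_zero, add_zero]⟩

lemma cocV_add {W : WeierstrassCurve k} {c d : Coch2 W} (hc : IsCocV p W c) (hd : IsCocV p W d) :
    IsCocV p W (c + d) := by
  obtain ⟨a1, a2, a3⟩ := hc
  obtain ⟨b1, b2, b3⟩ := hd
  refine ⟨fun n => (a1 n).add (b1 n), fun σ => isV_add (a2 σ) (b2 σ), fun σ τ n => ?_⟩
  change c (σ * τ) n + d (σ * τ) n = c σ n + d σ n + act W σ.toAlgHom (c τ n + d τ n)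
  rw [a3, b3, map_add]
  abel

lemma cocV_neg {W : WeierstrassCurve k} {c : Coch2 W} (hc : IsCocV p W c) : IsCocV p W (-c) := by
  obtain ⟨a1, a2, a3⟩ := hc
  refine ⟨fun n => (a1 n).neg, fun σ => isV_neg (a2 σ), fun σ τ n => ?_⟩
  change -c (σ * τ) n = -c σ n + act W σ.toAlgHom (-c τ n)
  rw [a3, map_neg]
  abel

lemma locKum_zero (W : WeierstrassCurve k) (K : Type) [Field K] [Algebra k K] :
    LocKum p W K 0 := fun ι => ⟨fun _ => 0, fun _ => smul_zero _, fun τ σ _ n => by
  change act W ι 0 = act W (τ.toAlgHom.restrictScalars k) 0 - 0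
  rw [map_zero, map_zero, sub_zero]⟩

lemma locKum_add {W : WeierstrassCurve k} {K : Type} [Field K] [Algebra k K] {c d : Coch2 W}
    (hc : LocKum p W K c) (hd : LocKum p W K d) : LocKum p W K (c + d) := by
  intro ι
  obtain ⟨P, hP1, hP2⟩ := hc ι
  obtain ⟨Q, hQ1, hQ2⟩ := hd ι
  refine ⟨fun n => P n + Q n, fun n => ?_, fun τ σ h n => ?_⟩
  · change p • (P (n + 1) + Q (n + 1)) = P n + Q n
    rw [smul_add, hP1 n, hQ1 n]
  · change act W ι (c σ n + d σ n) = act W (τ.toAlgHom.restrictScalars k) (P n + Q n) - (P n + Q n)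
    rw [map_add, map_add, hP2 τ σ h n, hQ2 τ σ h n]
    abel

lemma locKum_neg {W : WeierstrassCurve k} {K : Type} [Field K] [Algebra k K] {c : Coch2 W}
    (hc : LocKum p W K c) : LocKum p W K (-c) := by
  intro ι
  obtain ⟨P, hP1, hP2⟩ := hc ι
  refine ⟨fun n => -P n, fun n => ?_, fun τ σ h n => ?_⟩
  · change p • (-P (n + 1)) = -P n
    rw [smul_neg, hP1 n]
  · change act W ι (-c σ n) = act W (τ.toAlgHom.restrictScalars k) (-P n) - -P n
    rw [map_neg, map_neg, hP2 τ σ h n]
    abel

/-- the group of the coboundaries -/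
def cobV (p : ℕ) (W : WeierstrassCurve k) : AddSubgroup (Coch2 W) where
  carrier := {c | IsCobV p W c}
  zero_mem' := ⟨0, isV_zero W, fun σ n => by
    change (0 : Pt W (AlgebraicClosure k)) = act W σ.toAlgHom 0 - 0
    rw [map_zero, sub_zero]⟩
  add_mem' := by
    rintro c d ⟨x, hx, hc⟩ ⟨y, hy, hd⟩
    refine ⟨x + y, isV_add hx hy, fun σ n => ?_⟩
    change c σ n + d σ n = act W σ.toAlgHom (x n + y n) - (x n + y n)
    rw [hc, hd, map_add]
    abel
  neg_mem' := by
    rintro c ⟨x, hx, hc⟩
    refine ⟨-x, isV_neg hx, fun σ n => ?_⟩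
    change -c σ n = act W σ.toAlgHom (-x n) - -x n
    rw [hc, map_neg]
    abel

end

variable {F : Type} [Field F] [NumberField F]

/-- `c` is a continuous cocycle with values in `V_p(W)` whose restriction to the completions at all
the places of `F` is in the image of the local Kummer map -/
def IsSelV (p : ℕ) (W : WeierstrassCurve F) (c : Coch2 W) : Prop :=
  IsCocV p W c ∧
  (∀ v : IsDedekindDomain.HeightOneSpectrum (NumberField.RingOfIntegers F),
    LocKum p W (v.adicCompletion F) c) ∧
  ∀ v : NumberField.InfinitePlace F, LocKum p W v.Completion c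

/-- the group of the continuous cocycles with values in `V_p(W)` that satisfy the local conditions -/
def selCocV (p : ℕ) (W : WeierstrassCurve F) : AddSubgroup (Coch2 W) where
  carrier := {c | IsSelV p W c}
  zero_mem' := ⟨cocV_zero W, fun _ => locKum_zero W _, fun _ => locKum_zero W _⟩
  add_mem' := fun ⟨a1, a2, a3⟩ ⟨b1, b2, b3⟩ =>
    ⟨cocV_add a1 b1, fun v => locKum_add (a2 v) (b2 v), fun v => locKum_add (a3 v) (b3 v)⟩
  neg_mem' := fun ⟨a1, a2, a3⟩ =>
    ⟨cocV_neg a1, fun v => locKum_neg (a2 v), fun v => locKum_neg (a3 v)⟩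

/-- The Bloch–Kato Selmer group `H¹_f(F, V_p(W))`: the classes of continuous cocycles with values in
`V_p(W)` whose restriction to the completion at every place is in the image of the Kummer map. -/
def H1f (p : ℕ) (W : WeierstrassCurve F) : Type :=
  selCocV p W ⧸ (cobV p W).addSubgroupOf (selCocV p W)

noncomputable instance H1f.group (p : ℕ) (W : WeierstrassCurve F) : AddCommGroup (H1f p W) :=
  @QuotientAddGroup.Quotient.addCommGroup (selCocV p W) _ ((cobV p W).addSubgroupOf (selCocV p W))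

end Pool.Agent.Y667.BKP
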